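import Pool.Agent.N623.CS.Stm

/-!
# (B5) Infinite compositions of rigid surjections
-/

namespace Pool.Agent.N293.CS

open Pool.Agent.N623.CS

/-- A rigid surjection does not increase. -/
theorem rs_le (f : RS) : ∀ i, f i ≤ i := by
  intro i
  induction i using Nat.strong_induction_on with
  | _ i ih =>
    by_contra hlt
    push Not at hlt
    obtain ⟨j, hj, hj'⟩ := f.2.1 i i hlt
    have h1 := ih j hj
    have h2 : f j = i := hj'
    omega

/-- The finite compositions `h (m+k-1) * ... * h m`. -/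
noncomputable def cc (h : ℕ → RS) (m : ℕ) : ℕ → RS
  | 0 => 1
  | k + 1 => h (m + k) * cc h m k

theorem cc_succ' (h : ℕ → RS) (m k : ℕ) : cc h m (k + 1) = cc h (m + 1) k * h m := by
  induction k with
  | zero => simp [cc]
  | succ k ih =>
    have e : m + (k + 1) = m + 1 + k := by omega
    calc cc h m (k + 1 + 1) = h (m + (k + 1)) * cc h m (k + 1) := rfl
      _ = h (m + (k + 1)) * (cc h (m + 1) k * h m) := by rw [ih]
      _ = (h (m + 1 + k) * cc h (m + 1) k) * h m := by rw [e, mul_assoc]
      _ = cc h (m + 1) (k + 1) * h m := rfl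

/-- Letters `< d + m + k` are fixed from the stage `k` on. -/
theorem cc_stab {d : ℕ} {h : ℕ → RS} (hK : ∀ m, h m ∈ K (d + m)) (m k l i : ℕ)
    (hi : cc h m k i < d + m + k) : cc h m (k + l) i = cc h m k i := by
  induction l with
  | zero => rfl
  | succ l ih =>
    have e : cc h m (k + (l + 1)) i = h (m + (k + l)) (cc h m (k + l) i) := rfl
    rw [e, ih]
    exact hK (m + (k + l)) _ (by omega)

/-- The limit. -/
noncomputable def lim (h : ℕ → RS) (m i : ℕ) : ℕ := cc h m (i + 1) i

theorem lim_eq {d : ℕ} {h : ℕ → RS} (hK : ∀ m, h m ∈ K (d + m)) (m k i : ℕ) (hk : i + 1 ≤ k) :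
    cc h m k i = lim h m i := by
  obtain ⟨l, rfl⟩ := Nat.exists_eq_add_of_le hk
  exact cc_stab hK m (i + 1) l i (by have := rs_le (cc h m (i + 1)) i; omega)

theorem lim_rs {d : ℕ} {h : ℕ → RS} (hK : ∀ m, h m ∈ K (d + m)) (m : ℕ) : IsRS (lim h m) := by
  constructor
  · intro i v hv
    obtain ⟨j, hj, hj'⟩ := (cc h m (i + 1)).2.1 i v hv
    refine ⟨j, hj, ?_⟩
    rw [← lim_eq hK m (i + 1) j (by omega)]
    exact hj'
  · intro v
    obtain ⟨i, hi⟩ := (cc h m (v + 1)).2.2 v
    refine ⟨i, ?_⟩
    have hi' : cc h m (v + 1) i = v := hi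
    have h1 : cc h m (v + 1 + (i + 1)) i = cc h m (v + 1) i :=
      cc_stab hK m (v + 1) (i + 1) i (by omega)
    rw [← lim_eq hK m (v + 1 + (i + 1)) i (by omega), h1, hi']

theorem t_inf : S_INF := by
  intro d h hK
  refine ⟨fun m => ⟨lim h m, lim_rs hK m⟩, ?_, ?_⟩
  · intro m j hj
    change lim h m j = j
    have : ∀ k, cc h m k j = j := by
      intro k
      induction k with
      | zero => rfl
      | succ k ih =>
        have e : cc h m (k + 1) j = h (m + k) (cc h m k j) := rfl
        rw [e, ih]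
        exact hK (m + k) j (by omega)
    exact this _
  · intro m
    apply RS.ext
    intro i
    change lim h m i = lim h (m + 1) (h m i)
    have h1 : cc h m (i + 1 + 1) i = cc h (m + 1) (i + 1) (h m i) := by
      rw [cc_succ' h m (i + 1)]; rfl
    rw [← lim_eq hK m (i + 1 + 1) i (by omega), h1]
    exact lim_eq hK (m + 1) (i + 1) (h m i) (by have := rs_le (h m) i; omega)

end Pool.Agent.N293.CS
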